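import Mathlib

set_option autoImplicit false

namespace Pool.Agent.H.MP_b0b663_an

open Filter Topology Set Metric

variable {X : Type} [NormedAddCommGroup X] [NormedSpace ℝ X]

lemma sep {K : Set (WeakDual ℝ X)} (h1 : Convex ℝ K) (h2 : IsClosed K) {f : WeakDual ℝ X}
    (h : f ∉ K) : ∃ x : X, ∃ u, (∀ ψ ∈ K, ψ x < u) ∧ u < f x := by
  have := (WeakDual.withSeminorms ℝ X).toLocallyConvexSpace
  obtain ⟨l, u, h3, h4⟩ := geometric_hahn_banach_closed_point h1 h2 h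
  obtain ⟨x, rfl⟩ := LinearMap.dualEmbedding_surjective (topDualPairing ℝ X) l
  exact ⟨x, u, h3, h4⟩

lemma gold (F : (X →L[ℝ] ℝ) →L[ℝ] ℝ) (hF : ‖F‖ = 1) :
    (F : WeakDual ℝ (X →L[ℝ] ℝ)) ∈ closure (X := WeakDual ℝ (X →L[ℝ] ℝ))
      (NormedSpace.inclusionInDoubleDual ℝ X '' closedBall 0 1) := by
  by_contra hc
  obtain ⟨φ, u, h1, h2⟩ := sep (Convex.closure (E := WeakDual ℝ (X →L[ℝ] ℝ))
    ((convex_closedBall 0 1).linear_image
    (NormedSpace.inclusionInDoubleDual ℝ X).toLinearMap)) isClosed_closure hc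
  have h3 : ∀ x : X, ‖x‖ ≤ 1 → φ x < u := fun x hx =>
    h1 _ (subset_closure ⟨x, mem_closedBall_zero_iff.2 hx, rfl⟩)
  have h4 : F φ ≤ ‖F‖ * ‖φ‖ := (le_abs_self _).trans (F.le_opNorm φ)
  rw [hF, one_mul] at h4
  refine (h2.trans_le h4).not_ge (φ.opNorm_le_of_unit_norm ?_ fun x hx => ?_)
  · simpa using (h3 0 (by simp)).le
  have e1 := h3 x hx.le
  have e2 := h3 (-x) (by simp [hx])
  rw [map_neg] at e2
  rw [Real.norm_eq_abs, abs_le]
  constructor <;> linarith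

lemma ex_ultra (F : (X →L[ℝ] ℝ) →L[ℝ] ℝ) (hF : ‖F‖ = 1) :
    ∃ p : Ultrafilter X, (∀ᶠ x in (p : Filter X), ‖x‖ ≤ 1) ∧
      ∀ f : X →L[ℝ] ℝ, Tendsto f p (𝓝 (F f)) := by
  obtain ⟨J, hJ⟩ : ∃ J : X → WeakDual ℝ (X →L[ℝ] ℝ),
      J = fun x => NormedSpace.inclusionInDoubleDual ℝ X x := ⟨_, rfl⟩
  obtain ⟨G, hG⟩ : ∃ G : WeakDual ℝ (X →L[ℝ] ℝ), G = F := ⟨F, rfl⟩
  have h0 : G ∈ closure (J '' closedBall 0 1) := by
    subst hJ hG
    exact gold _ hF
  have h1 : (𝓝[J '' closedBall 0 1] G).NeBot := mem_closure_iff_nhdsWithin_neBot.1 h0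
  have h2 : (𝓟 (closedBall (0 : X) 1) ⊓ comap J (𝓝 G)).NeBot := by
    apply NeBot.of_map (m := J)
    rw [Filter.push_pull, map_principal, inf_comm]
    exact h1
  refine ⟨Ultrafilter.of (𝓟 (closedBall (0 : X) 1) ⊓ comap J (𝓝 G)), ?_, fun f => ?_⟩
  · have := (Ultrafilter.of_le (𝓟 (closedBall (0 : X) 1) ⊓ comap J (𝓝 G))).trans inf_le_left
    filter_upwards [le_principal_iff.1 this] with x hx using mem_closedBall_zero_iff.1 hx
  · have := (Ultrafilter.of_le (𝓟 (closedBall (0 : X) 1) ⊓ comap J (𝓝 G))).trans inf_le_right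
    have h3 : Tendsto J _ (𝓝 G) := tendsto_iff_comap.2 this
    have h4 := ((WeakDual.eval_continuous f).tendsto _).comp h3
    subst hJ hG
    exact h4

/-- sum of two ultrafilters (iterated limit) -/
noncomputable def ad (p q : Ultrafilter X) : Ultrafilter X :=
  p.bind fun a => q.map fun b => a + b

/-- scalar multiple -/
noncomputable def sc (t : ℝ) (p : Ultrafilter X) : Ultrafilter X := p.map fun a => t • a

omit [NormedSpace ℝ X] in
lemma ev_ad {p q : Ultrafilter X} {P : X → Prop} :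
    (∀ᶠ v in ad p q, P v) ↔ ∀ᶠ a in p, ∀ᶠ b in q, P (a + b) := Iff.rfl

lemma ev_sc {t : ℝ} {p : Ultrafilter X} {P : X → Prop} :
    (∀ᶠ v in sc t p, P v) ↔ ∀ᶠ a in p, P (t • a) := Iff.rfl

/-- weak-star limit `A • F` -/
def Lim (F : (X →L[ℝ] ℝ) →L[ℝ] ℝ) (q : Ultrafilter X) (A : ℝ) : Prop :=
  ∀ f : X →L[ℝ] ℝ, Tendsto f q (𝓝 (A * F f))

lemma Lim.sc {F : (X →L[ℝ] ℝ) →L[ℝ] ℝ} {q : Ultrafilter X} {A : ℝ} (h : Lim F q A) (t : ℝ) :
    Lim F (sc t q) (t * A) := fun f => by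
  have := (h f).const_mul t
  rw [← mul_assoc] at this
  intro W hW
  have h2 := this hW
  rw [mem_map] at h2 ⊢
  refine ev_sc.2 ?_
  filter_upwards [h2] with a ha
  simpa using ha

lemma Lim.ad {F : (X →L[ℝ] ℝ) →L[ℝ] ℝ} {q r : Ultrafilter X} {A B : ℝ} (h : Lim F q A)
    (h' : Lim F r B) : Lim F (ad q r) (A + B) := fun f => by
  have h1 : Tendsto (fun z : X × X => f z.1 + f z.2) ((q : Filter X) ×ˢ (r : Filter X))
      (𝓝 (A * F f + B * F f)) := ((h f).comp tendsto_fst).add ((h' f).comp tendsto_snd)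
  rw [← add_mul] at h1
  intro W hW
  have h2 := (h1.eventually_mem hW).curry
  rw [mem_map]
  refine ev_ad.2 ?_
  filter_upwards [h2] with a ha
  filter_upwards [ha] with b hb
  simpa using hb

lemma Lim.big {F : (X →L[ℝ] ℝ) →L[ℝ] ℝ}
    (hF : ∀ y : X, 9 / 10 ≤ ‖F - NormedSpace.inclusionInDoubleDual ℝ X y‖)
    {q : Ultrafilter X} {A : ℝ} (h : Lim F q A) (hA : A = 2 ∨ A = -2) (v : X) :
    ∀ᶠ w in q, 3 / 2 ≤ ‖v + w‖ := by
  have hA0 : A ≠ 0 := by rcases hA with h | h <;> rw [h] <;> norm_num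
  have hA2 : |A| = 2 := by rcases hA with h | h <;> rw [h] <;> norm_num
  have h1 := hF (-(A⁻¹ • v))
  obtain ⟨f, hf1, hf2⟩ := ContinuousLinearMap.exists_lt_apply_of_lt_opNorm
    (F - NormedSpace.inclusionInDoubleDual ℝ X (-(A⁻¹ • v))) (r := 4 / 5) (by linarith)
  have h2 : (F - NormedSpace.inclusionInDoubleDual ℝ X (-(A⁻¹ • v))) f = A⁻¹ * (f v + A * F f) := by
    rw [sub_apply, NormedSpace.dual_def, map_neg, map_smul, smul_eq_mul]
    field_simp
    ring
  rw [h2, Real.norm_eq_abs, abs_mul, abs_inv, hA2] at hf2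
  have h3 : Tendsto (fun w => |f v + f w|) q (𝓝 |f v + A * F f|) :=
    ((h f).const_add (f v)).abs
  filter_upwards [h3.eventually (lt_mem_nhds (show 3 / 2 < |f v + A * F f| by linarith))]
    with w hw
  rw [← map_add] at hw
  have h4 : |f (v + w)| ≤ ‖f‖ * ‖v + w‖ := f.le_opNorm _
  nlinarith [norm_nonneg (v + w), norm_nonneg f]

lemma key {d : ℝ} (h : ¬∃ x : ℕ → X, (∀ n, ‖x n‖ ≤ 1) ∧
      ∀ n m : ℕ, n ≠ m → d ≤ ‖x n + x m‖ ∧ d ≤ ‖x n - x m‖)
    (Y B : Ultrafilter X) {s : ℝ} (hs : 0 < s)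
    (h0 : ∀ᶠ y : X in Y, ∀ᶠ b : X in B, ‖y + b‖ ≤ s)
    (h1 : ∀ᶠ b : X in B, ∀ᶠ b' : X in B, d * s ≤ ‖b - b'‖)
    (h2 : ∀ᶠ y : X in Y, ∀ᶠ b : X in B, ∀ᶠ b' : X in B, d * s ≤ ‖(2 : ℝ) • y + (b + b')‖) :
    False := by
  obtain ⟨y, hy0, hy2⟩ := (h0.and h2).exists
  let R : X → X → Prop := fun b b' => d * s ≤ ‖b - b'‖ ∧ d * s ≤ ‖(2 : ℝ) • y + (b + b')‖
  have hR : Std.Symm R := ⟨fun a b hab => ⟨by rw [norm_sub_rev]; exact hab.1,
    by rw [add_comm b a]; exact hab.2⟩⟩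
  let G : X → Prop := fun b => ‖y + b‖ ≤ s ∧ ∀ᶠ b' in B, R b b'
  have hG : ∀ᶠ b in B, G b := by
    filter_upwards [hy0, h1, hy2] with b e0 e1 e2
    exact ⟨e0, e1.and e2⟩
  obtain ⟨g, hg1, hg2⟩ := exists_seq_of_forall_finset_exists' G R fun S hS => by
    have : ∀ᶠ b' in B, ∀ x ∈ S, R x b' :=
      (Filter.eventually_all_finset S).2 fun x hx => (hS x hx).2
    exact (hG.and this).exists
  refine h ⟨fun n => s⁻¹ • (y + g n), fun n => ?_, fun n m hnm => ⟨?_, ?_⟩⟩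
  · rw [norm_smul, norm_inv, Real.norm_of_nonneg hs.le, inv_mul_le_iff₀ hs, mul_one]
    exact (hg1 n).1
  · rw [← smul_add, norm_smul, norm_inv, Real.norm_of_nonneg hs.le, le_inv_mul_iff₀ hs, mul_comm]
    have := (hg2 hnm).2
    rwa [show (2 : ℝ) • y + (g n + g m) = y + g n + (y + g m) by rw [two_smul]; abel] at this
  · rw [← smul_sub, norm_smul, norm_inv, Real.norm_of_nonneg hs.le, le_inv_mul_iff₀ hs, mul_comm]
    have := (hg2 hnm).1
    rwa [show g n - g m = y + g n - (y + g m) by abel] at this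

lemma ev_not {Y : Type} {p : Ultrafilter Y} {P : Y → Prop} :
    (¬∀ᶠ x : Y in p, P x) ↔ ∀ᶠ x : Y in p, ¬P x := Ultrafilter.eventually_not.symm

lemma riesz [CompleteSpace X] {Z : Type} [NormedAddCommGroup Z] [NormedSpace ℝ Z]
    (L : X →ₗᵢ[ℝ] Z) (hL : ¬ Function.Surjective L) :
    ∃ F : Z, ‖F‖ = 1 ∧ ∀ y, 9 / 10 ≤ ‖F - L y‖ := by
  have hcl : IsClosed ((LinearMap.range L.toLinearMap : Submodule ℝ Z) : Set Z) :=
    L.isometry.isClosedEmbedding.isClosed_range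
  have hne : ∃ z, z ∉ (LinearMap.range L.toLinearMap : Submodule ℝ Z) := by
    by_contra! hc
    exact hL fun z => hc z
  obtain ⟨F, -, hF1, hF⟩ := riesz_lemma_of_lt_one hcl hne (r := 9 / 10) (by norm_num)
  exact ⟨F, hF1, fun y => hF _ ⟨y, rfl⟩⟩

theorem main [CompleteSpace X]
    (hX : ¬ Function.Surjective (NormedSpace.inclusionInDoubleDual ℝ X)) :
    ∃ x : ℕ → X, (∀ n, ‖x n‖ ≤ 1) ∧
      ∀ n m : ℕ, n ≠ m → 11 / 10 ≤ ‖x n + x m‖ ∧ 11 / 10 ≤ ‖x n - x m‖ := by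
  by_contra h
  obtain ⟨F, hF1, hF'⟩ := riesz (Z := StrongDual ℝ (StrongDual ℝ X))
    (NormedSpace.inclusionInDoubleDualLi ℝ (E := X)) hX
  change ∀ y : X, 9 / 10 ≤ ‖F - NormedSpace.inclusionInDoubleDual ℝ X y‖ at hF'
  obtain ⟨p, hp1, hp⟩ := ex_ultra F hF1
  have lp : Lim F p 1 := fun f => by simpa using hp f
  have ln : Lim F (sc (-1) p) (-1) := by simpa using lp.sc (-1)
  -- step 1
  have s1 : ∀ᶠ a : X in p, ∀ᶠ b : X in p, ‖a - b‖ ≤ 11 / 10 := by
    by_contra hc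
    refine key h (pure 0) p one_pos (by simpa using hp1) ?_ ?_
    · filter_upwards [ev_not.1 hc] with a ha
      filter_upwards [ev_not.1 ha] with b hb
      linarith
    · have := ev_ad.1 ((lp.ad lp).big hF' (Or.inl (by norm_num)) 0)
      change ∀ᶠ b : X in p, _
      filter_upwards [this] with a ha
      filter_upwards [ha] with b hb
      simp only [smul_zero]
      linarith
  -- step 2
  have lB : Lim F (ad (sc (-1) p) (ad (sc (-1) p) p)) (-1) := by
    simpa using ln.ad (ln.ad lp)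
  have s2 : ∀ᶠ a : X in p, ∀ᶠ b : X in p, ∀ᶠ c : X in p, ∀ᶠ e : X in p,
      1331 / 1000 ≤ ‖a - b - (c - e)‖ := by
    by_contra hc
    refine key h p (ad (sc (-1) p) (ad (sc (-1) p) p)) (s := 1331 / 1000) (by norm_num) ?_ ?_ ?_
    · simp only [ev_ad, ev_sc]
      filter_upwards [ev_not.1 hc] with a ha
      filter_upwards [ev_not.1 ha] with b hb
      filter_upwards [ev_not.1 hb] with c hc
      filter_upwards [ev_not.1 hc] with e he
      rw [show a + ((-1 : ℝ) • b + ((-1 : ℝ) • c + e)) = a - b - (c - e) by module]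
      linarith
    · rw [ev_ad, ev_sc]
      refine Eventually.of_forall fun a => ?_
      rw [ev_ad, ev_sc]
      refine Eventually.of_forall fun b => ?_
      have := ev_ad.1 ((lp.ad (lB.sc (-1))).big hF' (Or.inl (by norm_num))
        ((-1 : ℝ) • a + (-1 : ℝ) • b))
      filter_upwards [this] with c hc
      filter_upwards [ev_sc.1 hc] with e he
      rw [show (-1 : ℝ) • a + ((-1 : ℝ) • b + c) - e =
        (-1 : ℝ) • a + (-1 : ℝ) • b + (c + (-1 : ℝ) • e) by module]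
      linarith
    · refine Eventually.of_forall fun a => ?_
      have := ev_ad.1 ((lB.ad lB).big hF' (Or.inr (by norm_num)) ((2 : ℝ) • a))
      filter_upwards [this] with c hc
      filter_upwards [hc] with e he
      linarith
  -- step 3
  have lC : Lim F (ad p (sc (-1) p)) 0 := by simpa using lp.ad ln
  have t2 : ∀ᶠ b : X in ad p (sc (-1) p), ∀ᶠ b' : X in ad p (sc (-1) p),
      1331 / 1000 ≤ ‖b - b'‖ := by
    simp only [ev_ad, ev_sc]
    filter_upwards [s2] with a ha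
    filter_upwards [ha] with b hb
    filter_upwards [hb] with c hc
    filter_upwards [hc] with e he
    rwa [show a + (-1 : ℝ) • b - (c + (-1 : ℝ) • e) = a - b - (c - e) by module]
  have s3 : ∀ᶠ b : X in ad p (sc (-1) p), ∀ᶠ b' : X in ad p (sc (-1) p),
      ‖b + b'‖ ≤ 121 / 100 := by
    by_contra hc
    refine key h (pure 0) (ad p (sc (-1) p)) (s := 11 / 10) (by norm_num) ?_ ?_ ?_
    · change ∀ᶠ b : X in ad p (sc (-1) p), _
      simp only [ev_ad, ev_sc]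
      filter_upwards [s1] with a ha
      filter_upwards [ha] with b hb
      rwa [show 0 + (a + (-1 : ℝ) • b) = a - b by module]
    · filter_upwards [t2] with a ha
      filter_upwards [ha] with b hb
      linarith
    · change ∀ᶠ b : X in ad p (sc (-1) p), _
      filter_upwards [ev_not.1 hc] with a ha
      filter_upwards [ev_not.1 ha] with b hb
      simp only [smul_zero, zero_add]
      linarith
  -- step 4
  refine key h (ad p (sc (-1) p)) (ad p (sc (-1) p)) (s := 121 / 100) (by norm_num) s3 ?_ ?_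
  · filter_upwards [t2] with a ha
    filter_upwards [ha] with b hb
    linarith
  · rw [ev_ad]
    refine Eventually.of_forall fun a => ?_
    have := ev_sc.1 (ev_ad.1 (((ln.sc 2).ad (lC.ad lC)).big hF' (Or.inr (by norm_num))
      ((2 : ℝ) • a)))
    filter_upwards [this] with b hb
    filter_upwards [ev_ad.1 hb] with c hc
    filter_upwards [hc] with e he
    rw [smul_add, add_assoc]
    linarith

end Pool.Agent.H.MP_b0b663_an
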